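import Mathlib

/-!
# MP_907903_al, Q1: partitions of free Abelian groups into `ℵ₁`-large subsets

A free Abelian group of infinite rank `κ` (for instance `κ = ℵ₂`) can be partitioned into `κ`
subsets each of which is `ℵ₁`-large.
-/

namespace Pool.Agent.Results.MP_907903_al.LargePartition

open Cardinal Pointwise

universe u

/-- `A` is `κ`-large in the Abelian group `G`: `G = F + A` for some `F` with `|F| < κ`. -/
def IsLarge {G : Type u} [AddCommGroup G] (κ : Cardinal.{u}) (A : Set G) : Prop :=
  ∃ F : Set G, #F < κ ∧ F + A = Set.univ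

section

variable {G : Type u} [AddCommGroup G] {ι : Type u} (b : Module.Basis ι ℤ G)

/-- the elements whose coordinate at `α` is strictly the largest in absolute value -/
def A (α : ι) : Set G := {g | ∀ β, β ≠ α → |b.repr g β| < |b.repr g α|}

theorem A_unique {α β : ι} {g : G} (h : g ∈ A b α) (h' : g ∈ A b β) : α = β := by
  by_contra hne
  exact lt_asymm (h β (Ne.symm hne)) (h' α hne)

theorem basis_mem (α : ι) : b α ∈ A b α := by
  intro β hβ
  rw [b.repr_self, Finsupp.single_eq_same, Finsupp.single_eq_of_ne hβ]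
  simp

theorem cover (α : ι) (h : G) : ∃ n : ℤ, h + n • b α ∈ A b α := by
  classical
  set M : ℤ := ∑ β ∈ (b.repr h).support, |b.repr h β| with hM
  have hM0 : 0 ≤ M := Finset.sum_nonneg fun β _ => abs_nonneg _
  have hbd : ∀ β, |b.repr h β| ≤ M := by
    intro β
    by_cases hβ : β ∈ (b.repr h).support
    · exact Finset.single_le_sum (f := fun β => |b.repr h β|) (fun β _ => abs_nonneg _) hβ
    · rw [Finsupp.notMem_support_iff.1 hβ, abs_zero]
      exact hM0
  refine ⟨M + 1 - b.repr h α, ?_⟩
  intro β hβ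
  have h1 : b.repr (h + (M + 1 - b.repr h α) • b α) α = M + 1 := by
    rw [map_add, map_smul, b.repr_self, Finsupp.add_apply, Finsupp.smul_apply,
      Finsupp.single_eq_same]
    simp
  have h2 : b.repr (h + (M + 1 - b.repr h α) • b α) β = b.repr h β := by
    rw [map_add, map_smul, b.repr_self, Finsupp.add_apply, Finsupp.smul_apply,
      Finsupp.single_eq_of_ne hβ]
    simp
  rw [h1, h2, abs_of_nonneg (by omega : (0 : ℤ) ≤ M + 1)]
  have := hbd β
  omega

theorem large_of_subset (α : ι) (B : Set G) (hB : A b α ⊆ B) : IsLarge ℵ₁ B := by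
  refine ⟨Set.range fun n : ℤ => n • b α, ?_, ?_⟩
  · have h1 : #(Set.range fun n : ℤ => n • b α) ≤ ℵ₀ :=
      Cardinal.mk_le_aleph0_iff.2 (Set.countable_range _).to_subtype
    exact lt_of_le_of_lt h1 Cardinal.aleph0_lt_aleph_one
  · rw [Set.eq_univ_iff_forall]
    intro h
    obtain ⟨n, hn⟩ := cover b α h
    refine Set.mem_add.2 ⟨(-n) • b α, ⟨-n, rfl⟩, h + n • b α, hB hn, ?_⟩
    rw [neg_smul]
    abel

end

/-- **Answer to Q1 (positive), for all infinite ranks.** Every free Abelian group `G` of infinite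
rank `κ` (in particular of rank `ℵ₂`) has a partition into exactly `κ` nonempty subsets, each of
which is `ℵ₁`-large. -/
theorem result (G : Type u) [AddCommGroup G] [Module.Free ℤ G] (κ : Cardinal.{u}) (hκ : ℵ₀ ≤ κ)
    (hG : Module.rank ℤ G = κ) :
    ∃ P : Set (Set G), Setoid.IsPartition P ∧ #P = κ ∧ ∀ B ∈ P, IsLarge ℵ₁ B := by
  classical
  let ι := Module.Free.ChooseBasisIndex ℤ G
  let b : Module.Basis ι ℤ G := Module.Free.chooseBasis ℤ G
  have hι : #ι = κ := by
    rw [← hG]
    exact (Module.Free.rank_eq_card_chooseBasisIndex ℤ G).symm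
  have hne : Nonempty ι := by
    rw [← Cardinal.mk_ne_zero_iff, hι]
    exact (lt_of_lt_of_le Cardinal.aleph0_pos hκ).ne'
  obtain ⟨α0⟩ := hne
  let c : G → ι := fun g => if h : ∃ α, g ∈ A b α then h.choose else α0
  have hc : ∀ α g, g ∈ A b α → c g = α := by
    intro α g hg
    have h : ∃ α, g ∈ A b α := ⟨α, hg⟩
    have h1 : c g = h.choose := dif_pos h
    rw [h1]
    exact A_unique b h.choose_spec hg
  let cell : ι → Set G := fun α => {g | c g = α}
  have hcell : ∀ α, A b α ⊆ cell α := fun α g hg => hc α g hg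
  have hmem : ∀ α, b α ∈ cell α := fun α => hcell α (basis_mem b α)
  have hinj : Function.Injective cell := by
    intro α β hαβ
    have h1 : b α ∈ cell β := by rw [← hαβ]; exact hmem α
    exact (hmem α).symm.trans h1
  refine ⟨Set.range cell, ⟨?_, ?_⟩, ?_, ?_⟩
  · rintro ⟨α, hα⟩
    have h1 := hmem α
    rw [hα] at h1
    exact h1
  · intro g
    refine ⟨cell (c g), ⟨⟨c g, rfl⟩, rfl⟩, ?_⟩
    rintro _ ⟨⟨α, rfl⟩, hα⟩
    have h1 : c g = α := hα
    rw [h1]
  · rw [Cardinal.mk_range_eq cell hinj, hι]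
  · rintro _ ⟨α, rfl⟩
    exact large_of_subset b α _ (hcell α)

end Pool.Agent.Results.MP_907903_al.LargePartition
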